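import Pool.Agent.N553.PC.Rec
import Pool.Agent.R473.FP.Pieces

/-!
# Cutting the digits of several numbers, each in its own way, into pieces of small linear complexity
-/

set_option autoImplicit false

namespace Pool.Agent.N553.PC

open Finset
open Pool.Agent.H831R3.LC (dig)
open Pool.Agent.W47.JL

/-- The first `N` digits of `x` in base `b` are cut at the places in `E` into pieces which satisfy linear
recurrences of order `m` over `ℚ`, each piece one of its own. -/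
def Cut (b : ℕ) (x : ℝ) (N m : ℕ) (E : Finset ℕ) : Prop :=
  ∀ u v, u ≤ v → v ≤ N → (∀ i ∈ E, i < u ∨ v ≤ i) → ∃ c : ℕ → ℚ, ∀ i, u ≤ i → i + m < v →
    (dig x b (i + m + 1) : ℚ) = ∑ l ∈ range m, c l * (dig x b (i + l + 1) : ℚ)

/-- **Separate cuts.** -/
theorem cut_sep (J : ℕ) (x : Fin J → ℝ) (μ c0 A : ℝ) (hμ : 1 < μ) (hc0 : 0 < c0)
    (hA0 : 0 ≤ A) (hM : Meas J x μ c0 A) :
    ∃ C : ℝ, 0 < C ∧ ∀ b : ℕ, 2 ≤ b → ∀ (N : ℕ) (m : Fin J → ℕ) (E : Fin J → Finset ℕ),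
      (∀ j, Cut b (x j) N (m j) (E j)) →
      (N : ℝ) ≤ (∑ i ∈ range (∑ j, (E j).card + 1), μ ^ (i + 1)) *
        ((∑ j, m j : ℕ) + C * err (∑ j, m j)) := by
  classical
  obtain ⟨C, hC0, hC⟩ := Pool.Agent.R473.FP.pieces J x μ c0 A hμ hc0 hA0 hM
  refine ⟨C, hC0, fun b hb N m E hE => ?_⟩
  refine hC b hb N (∑ j, m j) (∑ j, (E j).card) (univ.biUnion E) card_biUnion_le ?_
  intro u v huv hvN hE'
  obtain ⟨c, hc⟩ := common J (fun j i => (dig (x j) b (i + 1) : ℚ)) m u v fun j => by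
    obtain ⟨c, hc⟩ := hE j u v huv hvN fun i hi => hE' i (mem_biUnion.2 ⟨j, mem_univ j, hi⟩)
    exact ⟨c, hc⟩
  exact ⟨c, fun j i h1 h2 => hc j i h1 h2⟩

theorem geom_le (μ : ℝ) (hμ : 1 ≤ μ) (R : ℕ) :
    ∑ i ∈ range (R + 1), μ ^ (i + 1) ≤ ((R : ℝ) + 1) * μ ^ (R + 1) := by
  calc ∑ i ∈ range (R + 1), μ ^ (i + 1) ≤ ∑ _i ∈ range (R + 1), μ ^ (R + 1) :=
        Finset.sum_le_sum fun i hi => pow_le_pow_right₀ hμ (by
          have := mem_range.1 hi; omega)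
    _ = _ := by rw [Finset.sum_const, nsmul_eq_mul, card_range]; push_cast; ring

theorem err_le (m : ℕ) : err m ≤ (m : ℝ) + 1 := by
  unfold err
  obtain ⟨h1, h2⟩ := log_facts m
  rw [Real.sqrt_le_left (by positivity)]
  have h3 : (0 : ℝ) ≤ (m : ℝ) + 1 := by positivity
  nlinarith

/-- polynomial growth beats -/
theorem eventually_lt (K a γ : ℝ) (hK : 0 ≤ K) (ha : 0 ≤ a) (hγ : γ < 1) :
    ∃ N₀ : ℕ, 1 ≤ N₀ ∧ ∀ N : ℕ, N₀ ≤ N → K * (a * Real.log N + 1) * (N : ℝ) ^ γ < N := by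
  obtain ⟨η, hη⟩ : ∃ η : ℝ, η = (1 - γ) / 2 := ⟨_, rfl⟩
  have hη0 : 0 < η := by rw [hη]; linarith
  have hlim := (tendsto_rpow_atTop hη0).eventually_gt_atTop (K * (a / η + 1))
  obtain ⟨Y0, hY0⟩ := Filter.eventually_atTop.1 hlim
  refine ⟨⌈Y0⌉₊ + 1, by omega, fun N hN => ?_⟩
  have hN1 : 1 ≤ N := by omega
  have hNR : (1 : ℝ) ≤ N := by exact_mod_cast hN1
  have hN0 : (0 : ℝ) < N := by linarith
  have hNY : Y0 ≤ N := by
    have h1 := Nat.le_ceil Y0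
    have h2 : ((⌈Y0⌉₊ : ℕ) : ℝ) + 1 ≤ N := by exact_mod_cast hN
    linarith
  have h1 := hY0 N hNY
  have h2 : Real.log N ≤ (N : ℝ) ^ η / η := Real.log_le_rpow_div hN0.le hη0
  have h3 : (1 : ℝ) ≤ (N : ℝ) ^ η := Real.one_le_rpow hNR hη0.le
  have h4 : a * Real.log N + 1 ≤ (a / η + 1) * (N : ℝ) ^ η := by
    have h5 := mul_le_mul_of_nonneg_left h2 ha
    have e : a * ((N : ℝ) ^ η / η) = a / η * (N : ℝ) ^ η := by ring
    rw [e] at h5
    rw [add_mul]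
    linarith
  have hlog := Real.log_nonneg hNR
  have hγ0 : 0 < (N : ℝ) ^ γ := Real.rpow_pos_of_pos hN0 _
  have hη1 : 0 < (N : ℝ) ^ η := Real.rpow_pos_of_pos hN0 _
  have e1 : (N : ℝ) ^ η * ((N : ℝ) ^ η * (N : ℝ) ^ γ) = N := by
    rw [← Real.rpow_add hN0, ← Real.rpow_add hN0]
    have : η + (η + γ) = 1 := by rw [hη]; ring
    rw [this, Real.rpow_one]
  calc K * (a * Real.log N + 1) * (N : ℝ) ^ γ
      ≤ K * ((a / η + 1) * (N : ℝ) ^ η) * (N : ℝ) ^ γ := by gcongr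
    _ = K * (a / η + 1) * ((N : ℝ) ^ η * (N : ℝ) ^ γ) := by ring
    _ < (N : ℝ) ^ η * ((N : ℝ) ^ η * (N : ℝ) ^ γ) :=
        mul_lt_mul_of_pos_right h1 (by positivity)
    _ = N := e1

/-- **Every large scale.** At every large scale the digits of at least one of the numbers are not cut into
few pieces of small linear complexity. -/
theorem cut_large (J : ℕ) (x : Fin J → ℝ) (μ c0 A : ℝ) (hμ : 1 < μ) (hc0 : 0 < c0)
    (hA0 : 0 ≤ A) (hM : Meas J x μ c0 A) (θ c : ℝ) (hθ : 0 ≤ θ) (hc : 0 ≤ c)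
    (hlt : c * (J * Real.log μ) + θ < 1) :
    ∃ N₀ : ℕ, ∀ b : ℕ, 2 ≤ b → ∀ N : ℕ, N₀ ≤ N → ∃ j, ∀ (m : ℕ) (E : Finset ℕ),
      (m : ℝ) ≤ (N : ℝ) ^ θ → (E.card : ℝ) ≤ c * Real.log N → ¬ Cut b (x j) N m E := by
  obtain ⟨C, hC0, hC⟩ := cut_sep J x μ c0 A hμ hc0 hA0 hM
  obtain ⟨N₀, hN01, hN0⟩ := eventually_lt ((1 + C) * (J + 1) * μ) (J * c) (c * (J * Real.log μ) + θ)
    (by positivity) (by positivity) hlt
  refine ⟨N₀, fun b hb N hN => ?_⟩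
  by_contra hcon
  push Not at hcon
  choose m E hm hE hcut using hcon
  have hN1 : 1 ≤ N := hN01.trans hN
  have hNR : (1 : ℝ) ≤ N := by exact_mod_cast hN1
  have hNpos : (0 : ℝ) < N := by linarith
  have hlog := Real.log_nonneg hNR
  have h1 := hC b hb N m E hcut
  have h2 := hN0 N hN
  obtain ⟨R, hR⟩ : ∃ R : ℕ, R = ∑ j, (E j).card := ⟨_, rfl⟩
  obtain ⟨M, hMM⟩ : ∃ M : ℕ, M = ∑ j, m j := ⟨_, rfl⟩
  rw [← hR, ← hMM] at h1
  have hRle : (R : ℝ) ≤ J * c * Real.log N := by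
    rw [hR]
    push_cast
    calc ∑ j, ((E j).card : ℝ) ≤ ∑ _j : Fin J, c * Real.log N := Finset.sum_le_sum fun j _ => hE j
      _ = _ := by rw [Finset.sum_const, nsmul_eq_mul]; simp; ring
  have hθ1 : (1 : ℝ) ≤ (N : ℝ) ^ θ := Real.one_le_rpow hNR hθ
  have hMle : (M : ℝ) + 1 ≤ (J + 1) * (N : ℝ) ^ θ := by
    have h3 : (M : ℝ) ≤ J * (N : ℝ) ^ θ := by
      rw [hMM]
      push_cast
      calc ∑ j, (m j : ℝ) ≤ ∑ _j : Fin J, (N : ℝ) ^ θ := Finset.sum_le_sum fun j _ => hm j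
        _ = _ := by rw [Finset.sum_const, nsmul_eq_mul]; simp
    rw [add_mul, one_mul]
    linarith
  have hF : (M : ℝ) + C * err M ≤ (1 + C) * ((J + 1) * (N : ℝ) ^ θ) := by
    have h3 := mul_le_mul_of_nonneg_left (err_le M) hC0.le
    have h4 : (M : ℝ) + C * ((M : ℝ) + 1) ≤ (1 + C) * ((M : ℝ) + 1) := by nlinarith
    have h5 := mul_le_mul_of_nonneg_left hMle (by linarith : (0 : ℝ) ≤ 1 + C)
    linarith
  have hlμ : 0 < Real.log μ := Real.log_pos hμ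
  have hpow : μ ^ R ≤ (N : ℝ) ^ (c * (J * Real.log μ)) := by
    rw [← Real.rpow_natCast μ R, Real.rpow_def_of_pos (by linarith : 0 < μ),
      Real.rpow_def_of_pos hNpos, Real.exp_le_exp]
    have h3 := mul_le_mul_of_nonneg_left hRle hlμ.le
    linarith
  have hG : ∑ i ∈ range (R + 1), μ ^ (i + 1) ≤
      (J * c * Real.log N + 1) * (μ * (N : ℝ) ^ (c * (J * Real.log μ))) := by
    refine (geom_le μ hμ.le R).trans ?_
    rw [pow_succ']
    have h3 : μ * μ ^ R ≤ μ * (N : ℝ) ^ (c * (J * Real.log μ)) :=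
      mul_le_mul_of_nonneg_left hpow (by linarith)
    exact mul_le_mul (by linarith) h3 (by positivity) (by positivity)
  have hF0 : 0 ≤ (M : ℝ) + C * err M := by
    have : 0 ≤ err M := Real.sqrt_nonneg _
    positivity
  have h3 : (N : ℝ) ≤ ((J * c * Real.log N + 1) * (μ * (N : ℝ) ^ (c * (J * Real.log μ)))) *
      ((1 + C) * ((J + 1) * (N : ℝ) ^ θ)) :=
    h1.trans (mul_le_mul hG hF hF0 (by positivity))
  have e : ((J * c * Real.log N + 1) * (μ * (N : ℝ) ^ (c * (J * Real.log μ)))) *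
      ((1 + C) * ((J + 1) * (N : ℝ) ^ θ)) =
      (1 + C) * (J + 1) * μ * (J * c * Real.log N + 1) * (N : ℝ) ^ (c * (J * Real.log μ) + θ) := by
    rw [Real.rpow_add hNpos]
    ring
  rw [e] at h3
  linarith

end Pool.Agent.N553.PC
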