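import Mathlib

/-!
# A common linear recurrence for several sequences
-/

set_option autoImplicit false

namespace Pool.Agent.N553.PC

open Finset Polynomial

/-- the shift -/
def shift : (ℕ → ℚ) →ₗ[ℚ] (ℕ → ℚ) where
  toFun a i := a (i + 1)
  map_add' _ _ := rfl
  map_smul' _ _ := rfl

theorem shift_pow (a : ℕ → ℚ) (l i : ℕ) : (shift ^ l) a i = a (i + l) := by
  induction l generalizing i with
  | zero => rfl
  | succ l ih =>
    rw [pow_succ', Module.End.mul_apply]
    change (shift ^ l) a (i + 1) = _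
    rw [ih]
    congr 1
    omega

/-- a polynomial in the shift -/
theorem aeval_shift (P : ℚ[X]) (a : ℕ → ℚ) (i M : ℕ) (hP : P.natDegree ≤ M) :
    (aeval shift P) a i = ∑ l ∈ range (M + 1), P.coeff l * a (i + l) := by
  rw [aeval_eq_sum_range' (Nat.lt_succ_of_le hP)]
  simp only [LinearMap.sum_apply, Finset.sum_apply, LinearMap.smul_apply, Pi.smul_apply, smul_eq_mul,
    shift_pow]

/-- the polynomial of a recurrence -/
noncomputable def poly (m : ℕ) (c : ℕ → ℚ) : ℚ[X] := X ^ m - ∑ l ∈ range m, C (c l) * X ^ l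

theorem deg_sum_lt (m : ℕ) (c : ℕ → ℚ) : (∑ l ∈ range m, C (c l) * X ^ l : ℚ[X]).degree < m := by
  rcases Nat.eq_zero_or_pos m with rfl | hm
  · simp
  refine (degree_sum_le _ _).trans_lt ?_
  rw [Finset.sup_lt_iff (by exact_mod_cast WithBot.bot_lt_coe m)]
  intro l hl
  refine (degree_C_mul_X_pow_le l (c l)).trans_lt ?_
  exact_mod_cast mem_range.1 hl

theorem poly_monic (m : ℕ) (c : ℕ → ℚ) : (poly m c).Monic :=
  monic_X_pow_sub (deg_sum_lt m c)

theorem poly_natDegree (m : ℕ) (c : ℕ → ℚ) : (poly m c).natDegree = m := by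
  have h : (poly m c).degree = m := by
    unfold poly
    rw [degree_sub_eq_left_of_degree_lt, degree_X_pow]
    rw [degree_X_pow]
    exact deg_sum_lt m c
  exact natDegree_eq_of_degree_eq_some h

theorem poly_coeff_lt (m : ℕ) (c : ℕ → ℚ) (l : ℕ) (hl : l < m) : (poly m c).coeff l = -c l := by
  unfold poly
  rw [coeff_sub, coeff_X_pow, if_neg hl.ne, finset_sum_coeff]
  simp only [coeff_C_mul, coeff_X_pow, mul_ite, mul_one, mul_zero]
  rw [Finset.sum_ite_eq, if_pos (mem_range.2 hl)]
  ring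

/-- the recurrence, in terms of its polynomial -/
theorem rec_iff (m : ℕ) (c : ℕ → ℚ) (a : ℕ → ℚ) (i : ℕ) :
    (aeval shift (poly m c)) a i = 0 ↔ a (i + m) = ∑ l ∈ range m, c l * a (i + l) := by
  rw [aeval_shift _ a i m (poly_natDegree m c).le, sum_range_succ]
  have h1 : (poly m c).coeff m = 1 := by
    have := (poly_monic m c).coeff_natDegree
    rwa [poly_natDegree] at this
  rw [h1, one_mul, Finset.sum_congr rfl fun l hl => by rw [poly_coeff_lt m c l (mem_range.1 hl)]]
  simp only [neg_mul, Finset.sum_neg_distrib]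
  rw [neg_add_eq_zero]
  exact eq_comm

/-- every monic polynomial is the polynomial of a recurrence -/
theorem monic_eq (P : ℚ[X]) (hP : P.Monic) : P = poly P.natDegree (fun l => -P.coeff l) := by
  ext l
  rcases lt_trichotomy l P.natDegree with h | h | h
  · rw [poly_coeff_lt _ _ _ h, neg_neg]
  · have h1 := (poly_monic P.natDegree (fun l => -P.coeff l)).coeff_natDegree
    rw [poly_natDegree] at h1
    rw [h, h1, hP.coeff_natDegree]
  · rw [coeff_eq_zero_of_natDegree_lt h, coeff_eq_zero_of_natDegree_lt]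
    rwa [poly_natDegree]

/-- Sequences which satisfy recurrences of orders `m j` on an interval satisfy one recurrence of order
`∑ m j` there. -/
theorem common (J : ℕ) (a : Fin J → ℕ → ℚ) (m : Fin J → ℕ) (u v : ℕ)
    (h : ∀ j, ∃ c : ℕ → ℚ, ∀ i, u ≤ i → i + m j < v →
      a j (i + m j) = ∑ l ∈ range (m j), c l * a j (i + l)) :
    ∃ c : ℕ → ℚ, ∀ j i, u ≤ i → i + ∑ k, m k < v →
      a j (i + ∑ k, m k) = ∑ l ∈ range (∑ k, m k), c l * a j (i + l) := by
  classical
  choose c hc using h
  obtain ⟨P, hP⟩ : ∃ P : ℚ[X], P = ∏ k, poly (m k) (c k) := ⟨_, rfl⟩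
  have hPm : P.Monic := by rw [hP]; exact monic_prod_of_monic _ _ fun k _ => poly_monic _ _
  have hPd : P.natDegree = ∑ k, m k := by
    rw [hP, natDegree_prod_of_monic _ _ fun k _ => poly_monic _ _]
    exact Finset.sum_congr rfl fun k _ => poly_natDegree _ _
  refine ⟨fun l => -P.coeff l, fun j i hi hiv => ?_⟩
  rw [← rec_iff (∑ k, m k) (fun l => -P.coeff l), ← hPd, ← monic_eq P hPm]
  obtain ⟨R, hR⟩ : ∃ R : ℚ[X], R = ∏ k ∈ univ.erase j, poly (m k) (c k) := ⟨_, rfl⟩
  have hPR : P = R * poly (m j) (c j) := by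
    rw [hP, hR, Finset.prod_erase_mul _ _ (mem_univ j)]
  have hRd : R.natDegree + m j = ∑ k, m k := by
    rw [hR, natDegree_prod_of_monic _ _ fun k _ => poly_monic _ _,
      Finset.sum_congr rfl fun k _ => poly_natDegree _ _, Finset.sum_erase_add _ _ (mem_univ j)]
  rw [hPR, map_mul, Module.End.mul_apply, aeval_shift R _ i R.natDegree le_rfl]
  refine Finset.sum_eq_zero fun l hl => ?_
  have hl' := mem_range.1 hl
  have h1 : (aeval shift (poly (m j) (c j))) (a j) (i + l) = 0 := by
    rw [rec_iff]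
    exact hc j (i + l) (by omega) (by omega)
  rw [h1, mul_zero]

end Pool.Agent.N553.PC
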